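import Pool.Agent.H466.HP.Stm
import Pool.Graph.R_pool_sql_team_seeded_3997aac3.Q211.NB.MSW
import Pool.Graph.R_seed8.H448R2.GC.X2
import Pool.Graph.R_seed8.H448R2.GC.S0

/-!
# `S_GW`: most windows have small values of zeta on the critical line

Pointwise: `ζ(1/2 + iy)` is bounded by Gaussian averages of `|ζ|` on the lines `1/2 + a` (weight
`T^(4a)`) and `1/4` (weight `1/T`), by Cauchy's formula in the strip; then the mean square of `ζ` on
the line `1/2 + a`.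
-/

set_option autoImplicit false

namespace Pool.Agent.H118.HP

open Complex MeasureTheory Set Filter Topology

/-- `(w - 1) ζ(w)` -/
noncomputable def E (w : ℂ) : ℂ := Function.update (fun w : ℂ => (w - 1) * riemannZeta w) 1 1 w

lemma E_diff : Differentiable ℂ E := Pool.Agent.H448R2.GC.zeta_one_entire

lemma E_eq {w : ℂ} (h : w ≠ 1) : E w = (w - 1) * riemannZeta w := by
  unfold E
  rw [Function.update_of_ne h]

lemma norm_E {w : ℂ} (h : w.re ≤ 3 / 4) : ‖E w‖ = ‖w - 1‖ * ‖riemannZeta w‖ := by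
  have h1 : w ≠ 1 := by
    rintro rfl
    norm_num at h
  rw [E_eq h1, norm_mul]

/-- the shifted function -/
noncomputable def G (l y : ℝ) (z : ℂ) : ℂ :=
  E z * cexp (l * (z - (⟨1 / 2, y⟩ : ℂ)) + (z - (⟨1 / 2, y⟩ : ℂ)) ^ 2)

lemma G_diff (l y : ℝ) : Differentiable ℂ (G l y) := by
  unfold G
  exact E_diff.mul (by fun_prop)

lemma norm_ex (l y : ℝ) (z : ℂ) :
    ‖cexp (l * (z - (⟨1 / 2, y⟩ : ℂ)) + (z - (⟨1 / 2, y⟩ : ℂ)) ^ 2)‖ =
      Real.exp (l * (z.re - 1 / 2) + (z.re - 1 / 2) ^ 2 - (z.im - y) ^ 2) := by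
  rw [Complex.norm_exp]
  congr 1
  rw [add_re, mul_re, pow_two, mul_re]
  simp
  ring

lemma poly_gauss (v : ℝ) : (1 + |v|) ^ 2 * Real.exp (-v ^ 2) ≤ 2 := by
  have h1 : v ^ 2 + 1 ≤ Real.exp (v ^ 2) := Real.add_one_le_exp _
  have h2 : (1 + |v|) ^ 2 ≤ 2 * Real.exp (v ^ 2) := by
    have h3 := sq_abs v
    nlinarith [sq_nonneg (1 - |v|)]
  calc (1 + |v|) ^ 2 * Real.exp (-v ^ 2) ≤ 2 * Real.exp (v ^ 2) * Real.exp (-v ^ 2) :=
        mul_le_mul_of_nonneg_right h2 (Real.exp_pos _).le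
    _ = 2 := by
        rw [mul_assoc, ← Real.exp_add]
        simp

lemma lin_gauss (v : ℝ) : (2 + 2 * |v|) * Real.exp (-v ^ 2) ≤ 4 * Real.exp (-v ^ 2 / 2) := by
  have h1 : v ^ 2 / 2 + 1 ≤ Real.exp (v ^ 2 / 2) := Real.add_one_le_exp _
  have h2 : 2 + 2 * |v| ≤ 4 * Real.exp (v ^ 2 / 2) := by
    have h3 := sq_abs v
    nlinarith [sq_nonneg (1 - |v|)]
  calc (2 + 2 * |v|) * Real.exp (-v ^ 2) ≤ 4 * Real.exp (v ^ 2 / 2) * Real.exp (-v ^ 2) :=
        mul_le_mul_of_nonneg_right h2 (Real.exp_pos _).le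
    _ = 4 * Real.exp (-v ^ 2 / 2) := by
        rw [mul_assoc, ← Real.exp_add]
        congr 2
        ring

/-- growth on the strip -/
lemma G_bdd (l y : ℝ) (hl : 0 ≤ l) : ∃ C : ℝ, ∀ z : ℂ, 1 / 4 ≤ z.re → z.re ≤ 3 / 4 → ‖G l y z‖ ≤ C := by
  obtain ⟨C, hC, h⟩ := Pool.Agent.H448R2.GC.zeta_growth_mid
  refine ⟨C * (1 + |y|) ^ 2 * 2 * Real.exp (l + 1), fun z h1 h2 => ?_⟩
  have h3 := h z (by linarith) (by linarith)
  unfold G
  rw [norm_mul, norm_E h2, norm_ex]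
  have h4 : ‖z - 1‖ ≤ 1 + |z.im| := by
    have h5 := Complex.norm_le_abs_re_add_abs_im (z - 1)
    have h6 : |(z - 1).re| ≤ 1 := by
      rw [sub_re, one_re, abs_le]
      constructor <;> linarith
    have h7 : (z - 1).im = z.im := by simp
    rw [h7] at h5
    linarith
  have h5 : 1 + |z.im| ≤ (1 + |y|) * (1 + |z.im - y|) := by
    have h6 : |z.im| ≤ |y| + |z.im - y| := by
      have := abs_add_le y (z.im - y)
      rwa [add_sub_cancel] at this
    nlinarith [mul_nonneg (abs_nonneg y) (abs_nonneg (z.im - y))]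
  have h6 : Real.exp (l * (z.re - 1 / 2) + (z.re - 1 / 2) ^ 2 - (z.im - y) ^ 2) ≤
      Real.exp (l + 1) * Real.exp (-(z.im - y) ^ 2) := by
    rw [← Real.exp_add]
    apply Real.exp_le_exp.2
    have h7 : l * (z.re - 1 / 2) ≤ l := by nlinarith
    have h8 : (z.re - 1 / 2) ^ 2 ≤ 1 := by nlinarith
    linarith
  have h0 : 0 ≤ 1 + |z.im| := by positivity
  calc ‖z - 1‖ * ‖riemannZeta z‖ * Real.exp (l * (z.re - 1 / 2) + (z.re - 1 / 2) ^ 2 - (z.im - y) ^ 2)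
      ≤ (1 + |z.im|) * (C * (1 + |z.im|)) * (Real.exp (l + 1) * Real.exp (-(z.im - y) ^ 2)) := by
        gcongr
    _ = C * (1 + |z.im|) ^ 2 * (Real.exp (l + 1) * Real.exp (-(z.im - y) ^ 2)) := by ring
    _ ≤ C * ((1 + |y|) * (1 + |z.im - y|)) ^ 2 * (Real.exp (l + 1) * Real.exp (-(z.im - y) ^ 2)) := by
        gcongr
    _ = C * (1 + |y|) ^ 2 * Real.exp (l + 1) * ((1 + |z.im - y|) ^ 2 * Real.exp (-(z.im - y) ^ 2)) := by
        ring
    _ ≤ C * (1 + |y|) ^ 2 * Real.exp (l + 1) * 2 := by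
        gcongr
        exact poly_gauss _
    _ = _ := by ring

/-- size of the integrand -/
lemma G_pt {l y x u : ℝ} (hx1 : 1 / 4 ≤ x) (hx2 : x ≤ 3 / 4) :
    ‖G l y ((x : ℂ) + (u : ℂ) * I)‖ ≤ ‖(⟨1 / 2, y⟩ : ℂ) - 1‖ * (4 * Real.exp (l * (x - 1 / 2) + 1)) *
      (‖riemannZeta ((x : ℂ) + (u : ℂ) * I)‖ * Real.exp (-(u - y) ^ 2 / 2)) := by
  set z : ℂ := (x : ℂ) + (u : ℂ) * I with hz
  have hzr : z.re = x := by simp [hz]
  have hzi : z.im = u := by simp [hz]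
  unfold G
  rw [norm_mul, norm_E (by rw [hzr]; exact hx2), norm_ex, hzr, hzi]
  set N : ℝ := ‖(⟨1 / 2, y⟩ : ℂ) - 1‖ with hN
  have hN1 : 1 / 2 ≤ N := by
    have := Complex.abs_re_le_norm ((⟨1 / 2, y⟩ : ℂ) - 1)
    rw [sub_re, one_re] at this
    norm_num at this
    rw [hN]
    linarith
  have h1 : ‖z - 1‖ ≤ N * (2 + 2 * |u - y|) := by
    have h2 : ‖z - 1‖ ≤ N + ‖z - (⟨1 / 2, y⟩ : ℂ)‖ := by
      have := norm_add_le ((⟨1 / 2, y⟩ : ℂ) - 1) (z - (⟨1 / 2, y⟩ : ℂ))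
      have e : (⟨1 / 2, y⟩ : ℂ) - 1 + (z - (⟨1 / 2, y⟩ : ℂ)) = z - 1 := by ring
      rwa [e] at this
    have h3 : ‖z - (⟨1 / 2, y⟩ : ℂ)‖ ≤ 1 / 4 + |u - y| := by
      have h4 := Complex.norm_le_abs_re_add_abs_im (z - (⟨1 / 2, y⟩ : ℂ))
      rw [sub_re, sub_im, hzr, hzi] at h4
      have h5 : |x - 1 / 2| ≤ 1 / 4 := by
        rw [abs_le]
        constructor <;> linarith
      simp only at h4
      linarith
    have h6 := abs_nonneg (u - y)
    nlinarith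
  have h2 : Real.exp (l * (x - 1 / 2) + (x - 1 / 2) ^ 2 - (u - y) ^ 2) ≤
      Real.exp (l * (x - 1 / 2) + 1) * Real.exp (-(u - y) ^ 2) := by
    rw [← Real.exp_add]
    apply Real.exp_le_exp.2
    have h8 : (x - 1 / 2) ^ 2 ≤ 1 := by nlinarith
    linarith
  have hN0 : 0 ≤ N := norm_nonneg _
  calc ‖z - 1‖ * ‖riemannZeta z‖ * Real.exp (l * (x - 1 / 2) + (x - 1 / 2) ^ 2 - (u - y) ^ 2)
      ≤ (N * (2 + 2 * |u - y|)) * ‖riemannZeta z‖ *
        (Real.exp (l * (x - 1 / 2) + 1) * Real.exp (-(u - y) ^ 2)) := by gcongr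
    _ = N * Real.exp (l * (x - 1 / 2) + 1) * ‖riemannZeta z‖ *
        ((2 + 2 * |u - y|) * Real.exp (-(u - y) ^ 2)) := by ring
    _ ≤ N * Real.exp (l * (x - 1 / 2) + 1) * ‖riemannZeta z‖ * (4 * Real.exp (-(u - y) ^ 2 / 2)) := by
        have := lin_gauss (u - y)
        gcongr
    _ = _ := by ring

lemma gauss_int (b y : ℝ) (hb : 0 < b) : Integrable (fun u : ℝ => (1 + |u|) * Real.exp (-(u - y) ^ 2 / b)) := by
  have h1 : Integrable (fun u : ℝ => Real.exp (-(1 / b) * u ^ 2)) := integrable_exp_neg_mul_sq (by positivity)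
  have h2 : Integrable (fun u : ℝ => u * Real.exp (-(1 / b) * u ^ 2)) := integrable_mul_exp_neg_mul_sq (by positivity)
  have h3 : Integrable (fun u : ℝ => (1 + |y|) * Real.exp (-(1 / b) * u ^ 2) + |u * Real.exp (-(1 / b) * u ^ 2)|) :=
    (h1.const_mul _).add h2.abs
  have h4 := h3.comp_sub_right y
  refine h4.mono' (by fun_prop) (Eventually.of_forall fun u => ?_)
  rw [Real.norm_eq_abs, abs_of_nonneg (by positivity), abs_mul, abs_of_pos (Real.exp_pos _), ← add_mul]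
  have e : -(1 / b) * (u - y) ^ 2 = -(u - y) ^ 2 / b := by ring
  rw [e]
  refine mul_le_mul_of_nonneg_right ?_ (Real.exp_pos _).le
  have := abs_add_le y (u - y)
  rw [add_sub_cancel] at this
  linarith

lemma zc (x : ℝ) (h : x < 1) : Continuous (fun t : ℝ => ‖riemannZeta ((x : ℂ) + t * I)‖) :=
  (Pool.Agent.Q211.NB.zcont h).norm

lemma zeta_gauss_int {x : ℝ} (h1 : 1 / 4 ≤ x) (h2 : x ≤ 3 / 4) (b y : ℝ) (hb : 0 < b) :
    Integrable (fun u : ℝ => ‖riemannZeta ((x : ℂ) + (u : ℂ) * I)‖ * Real.exp (-(u - y) ^ 2 / b)) := by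
  obtain ⟨C, hC, h⟩ := Pool.Agent.H448R2.GC.zeta_growth_mid
  refine ((gauss_int b y hb).const_mul C).mono' ?_ (Eventually.of_forall fun u => ?_)
  · exact ((zc x (by linarith)).mul (by fun_prop)).aestronglyMeasurable
  · rw [Real.norm_eq_abs, abs_of_nonneg (by positivity), ← mul_assoc]
    refine mul_le_mul_of_nonneg_right ?_ (Real.exp_pos _).le
    have := h ((x : ℂ) + (u : ℂ) * I) (by simp; linarith) (by simp; linarith)
    simpa using this

/-- values on the critical line and averages on two other lines -/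
lemma pt0 {a : ℝ} (ha : 0 < a) (ha4 : a ≤ 1 / 4) (l y : ℝ) (hl : 0 ≤ l) :
    ‖riemannZeta (⟨1 / 2, y⟩ : ℂ)‖ ≤
      (4 / a * Real.exp (l * a + 1) *
        ∫ u : ℝ, ‖riemannZeta (((1 / 2 + a : ℝ) : ℂ) + (u : ℂ) * I)‖ * Real.exp (-(u - y) ^ 2 / 2)) +
      16 * Real.exp (-(l / 4) + 1) *
        ∫ u : ℝ, ‖riemannZeta (((1 / 4 : ℝ) : ℂ) + (u : ℂ) * I)‖ * Real.exp (-(u - y) ^ 2 / 2) := by
  obtain ⟨C, hC⟩ := G_bdd l y hl
  set q : ℂ := ⟨1 / 2, y⟩ with hq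
  set p : ℂ := ⟨-1, y⟩ with hp
  have key := Pool.Agent.H448R2.GC.shift1 (G l y) p q (1 / 4) (1 / 2 + a) C (G_diff l y)
    (by rw [hp]; norm_num) (by rw [hq]; norm_num) (by rw [hq]; simp; exact ha)
    (fun z h1 h2 => hC z h1 (by linarith))
  have hqp : q - p = ((3 / 2 : ℝ) : ℂ) := by
    apply Complex.ext
    · simp [hp, hq]; norm_num
    · simp [hp, hq]
  have hGq : G l y q = E q := by
    unfold G
    rw [← hq, sub_self]
    simp
  have hq34 : q.re ≤ 3 / 4 := by rw [hq]; norm_num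
  have hN : ‖G l y q‖ = ‖q - 1‖ * ‖riemannZeta q‖ := by rw [hGq, norm_E hq34]
  set N : ℝ := ‖q - 1‖ with hNd
  have hN1 : 0 < N := by
    have := Complex.abs_re_le_norm (q - 1)
    rw [sub_re, one_re, hq] at this
    norm_num at this
    rw [hNd, hq]
    linarith
  -- the bound of one line
  have hline : ∀ x d : ℝ, 1 / 4 ≤ x → x ≤ 3 / 4 → 0 < d → d ≤ |x - 1 / 2| →
      ‖∫ u : ℝ, G l y ((x : ℂ) + (u : ℂ) * I) /
        ((((x : ℂ) + (u : ℂ) * I) - p) * (((x : ℂ) + (u : ℂ) * I) - q))‖ ≤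
      N * (4 * Real.exp (l * (x - 1 / 2) + 1)) / d *
        ∫ u : ℝ, ‖riemannZeta ((x : ℂ) + (u : ℂ) * I)‖ * Real.exp (-(u - y) ^ 2 / 2) := by
    intro x d h1 h2 hd hd2
    rw [← integral_const_mul]
    refine norm_integral_le_of_norm_le ((zeta_gauss_int h1 h2 2 y (by norm_num)).const_mul _)
      (Eventually.of_forall fun u => ?_)
    have hb := G_pt (l := l) (y := y) (u := u) h1 h2
    rw [← hq] at hb
    have hp1 : 1 ≤ ‖((x : ℂ) + (u : ℂ) * I) - p‖ := by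
      have := Complex.abs_re_le_norm (((x : ℂ) + (u : ℂ) * I) - p)
      rw [sub_re, hp] at this
      simp only [add_re, ofReal_re, mul_re, I_re, mul_zero, ofReal_im, I_im, mul_one, sub_self, add_zero] at this
      have h3 : x - -1 ≤ |x - -1| := le_abs_self _
      linarith
    have hq1 : d ≤ ‖((x : ℂ) + (u : ℂ) * I) - q‖ := by
      have := Complex.abs_re_le_norm (((x : ℂ) + (u : ℂ) * I) - q)
      rw [sub_re, hq] at this
      simp only [add_re, ofReal_re, mul_re, I_re, mul_zero, ofReal_im, I_im, mul_one, sub_self, add_zero] at this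
      exact hd2.trans this
    have hpq : d ≤ ‖((x : ℂ) + (u : ℂ) * I) - p‖ * ‖((x : ℂ) + (u : ℂ) * I) - q‖ := by
      nlinarith
    rw [norm_div, norm_mul]
    calc ‖G l y ((x : ℂ) + (u : ℂ) * I)‖ / (‖((x : ℂ) + (u : ℂ) * I) - p‖ * ‖((x : ℂ) + (u : ℂ) * I) - q‖)
        ≤ (N * (4 * Real.exp (l * (x - 1 / 2) + 1)) *
          (‖riemannZeta ((x : ℂ) + (u : ℂ) * I)‖ * Real.exp (-(u - y) ^ 2 / 2))) / d :=
          div_le_div₀ (by positivity) hb hd hpq
      _ = _ := by ring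
  have h1 := hline (1 / 2 + a) a (by linarith) (by linarith) ha (by
    rw [add_sub_cancel_left]; exact le_abs_self a)
  have h2 := hline (1 / 4) (1 / 4) le_rfl (by norm_num) (by norm_num) (by
    rw [abs_of_nonpos (by norm_num)]; norm_num)
  set J1 : ℝ := ∫ u : ℝ, ‖riemannZeta (((1 / 2 + a : ℝ) : ℂ) + (u : ℂ) * I)‖ * Real.exp (-(u - y) ^ 2 / 2)
    with hJ1
  set J2 : ℝ := ∫ u : ℝ, ‖riemannZeta (((1 / 4 : ℝ) : ℂ) + (u : ℂ) * I)‖ * Real.exp (-(u - y) ^ 2 / 2)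
    with hJ2
  have e1 : l * (1 / 2 + a - 1 / 2) + 1 = l * a + 1 := by ring
  have e2 : l * (1 / 4 - 1 / 2) + 1 = -(l / 4) + 1 := by ring
  rw [e1] at h1
  rw [e2] at h2
  have h3 := congrArg norm key
  rw [norm_mul, norm_div, hqp, Complex.norm_real, hN] at h3
  have h4 := norm_sub_le (∫ u : ℝ, G l y (((1 / 2 + a : ℝ) : ℂ) + (u : ℂ) * I) /
        (((((1 / 2 + a : ℝ) : ℂ) + (u : ℂ) * I) - p) * ((((1 / 2 + a : ℝ) : ℂ) + (u : ℂ) * I) - q)))
      (∫ u : ℝ, G l y (((1 / 4 : ℝ) : ℂ) + (u : ℂ) * I) /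
        (((((1 / 4 : ℝ) : ℂ) + (u : ℂ) * I) - p) * ((((1 / 4 : ℝ) : ℂ) + (u : ℂ) * I) - q)))
  rw [h3] at h4
  have hpi : ‖(2 * Real.pi : ℂ)‖ = 2 * Real.pi := by
    rw [norm_mul]
    simp [abs_of_pos Real.pi_pos]
  have h32 : ‖(3 / 2 : ℝ)‖ = 3 / 2 := by rw [Real.norm_eq_abs, abs_of_pos (by norm_num)]
  rw [hpi, h32] at h4
  have h5 : N * ‖riemannZeta q‖ ≤ 2 * Real.pi * (N * ‖riemannZeta q‖ / (3 / 2)) := by
    have h6 : 0 ≤ N * ‖riemannZeta q‖ := by positivity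
    have h7 := Real.pi_gt_three
    have e : 2 * Real.pi * (N * ‖riemannZeta q‖ / (3 / 2)) = (4 / 3 * Real.pi) * (N * ‖riemannZeta q‖) := by ring
    rw [e]
    exact le_mul_of_one_le_left h6 (by linarith)
  have h6 : N * ‖riemannZeta q‖ ≤ N * (4 / a * Real.exp (l * a + 1) * J1 +
      16 * Real.exp (-(l / 4) + 1) * J2) := by
    refine h5.trans (h4.trans ((add_le_add h1 h2).trans (le_of_eq ?_)))
    field_simp
    ring
  exact le_of_mul_le_mul_left h6 hN1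

lemma left_int : ∃ C : ℝ, 0 < C ∧ ∀ y : ℝ,
    ∫ u : ℝ, ‖riemannZeta (((1 / 4 : ℝ) : ℂ) + (u : ℂ) * I)‖ * Real.exp (-(u - y) ^ 2 / 2) ≤
      C * (1 + |y|) := by
  obtain ⟨C, hC, h⟩ := Pool.Agent.H448R2.GC.zeta_growth_mid
  have hg := gauss_int 2 0 (by norm_num)
  simp only [sub_zero] at hg
  set c : ℝ := ∫ u : ℝ, (1 + |u|) * Real.exp (-u ^ 2 / 2) with hc
  have hc0 : 0 ≤ c := integral_nonneg fun u => by positivity
  refine ⟨C * c + 1, by positivity, fun y => ?_⟩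
  have e1 : ∫ u : ℝ, ‖riemannZeta (((1 / 4 : ℝ) : ℂ) + (u : ℂ) * I)‖ * Real.exp (-(u - y) ^ 2 / 2) =
      ∫ v : ℝ, ‖riemannZeta (((1 / 4 : ℝ) : ℂ) + ((v + y : ℝ) : ℂ) * I)‖ * Real.exp (-(v) ^ 2 / 2) := by
    have := integral_add_right_eq_self (μ := volume)
      (fun u : ℝ => ‖riemannZeta (((1 / 4 : ℝ) : ℂ) + (u : ℂ) * I)‖ * Real.exp (-(u - y) ^ 2 / 2)) y
    rw [← this]
    refine integral_congr_ae (Eventually.of_forall fun v => ?_)
    simp only [add_sub_cancel_right]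
  rw [e1]
  calc ∫ v : ℝ, ‖riemannZeta (((1 / 4 : ℝ) : ℂ) + ((v + y : ℝ) : ℂ) * I)‖ * Real.exp (-(v) ^ 2 / 2)
      ≤ ∫ v : ℝ, (C * (1 + |y|)) * ((1 + |v|) * Real.exp (-v ^ 2 / 2)) := by
        refine integral_mono_of_nonneg (Eventually.of_forall fun v => by positivity) (hg.const_mul _)
          (Eventually.of_forall fun v => ?_)
        simp only
        rw [← mul_assoc]
        refine mul_le_mul_of_nonneg_right ?_ (Real.exp_pos _).le
        have h1 := h (((1 / 4 : ℝ) : ℂ) + ((v + y : ℝ) : ℂ) * I) (by simp; norm_num) (by simp; norm_num)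
        have h2 : (((1 / 4 : ℝ) : ℂ) + ((v + y : ℝ) : ℂ) * I).im = v + y := by simp
        rw [h2] at h1
        have h3 := abs_add_le v y
        have h4 : 1 + |v + y| ≤ (1 + |y|) * (1 + |v|) := by
          nlinarith [mul_nonneg (abs_nonneg v) (abs_nonneg y)]
        calc _ ≤ C * (1 + |v + y|) := h1
          _ ≤ C * ((1 + |y|) * (1 + |v|)) := by gcongr
          _ = _ := by ring
    _ = C * (1 + |y|) * c := by rw [integral_const_mul]
    _ ≤ (C * c + 1) * (1 + |y|) := by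
        have := abs_nonneg y
        nlinarith

/-- the local average -/
noncomputable def H (σ t : ℝ) : ℝ :=
  ∫ v : ℝ, ‖riemannZeta ((σ : ℂ) + ((t + v : ℝ) : ℂ) * I)‖ * Real.exp (-v ^ 2 / 4)

lemma H_int {σ : ℝ} (h1 : 1 / 4 ≤ σ) (h2 : σ ≤ 3 / 4) (t : ℝ) :
    Integrable (fun v : ℝ => ‖riemannZeta ((σ : ℂ) + ((t + v : ℝ) : ℂ) * I)‖ * Real.exp (-v ^ 2 / 4)) := by
  have h := (zeta_gauss_int h1 h2 4 t (by norm_num)).comp_add_left t
  refine h.congr (Eventually.of_forall fun v => ?_)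
  simp only [add_sub_cancel_left]

lemma window {σ : ℝ} (h1 : 1 / 4 ≤ σ) (h2 : σ ≤ 3 / 4) {R t y : ℝ} (hy : |y - t| ≤ R) :
    ∫ u : ℝ, ‖riemannZeta ((σ : ℂ) + (u : ℂ) * I)‖ * Real.exp (-(u - y) ^ 2 / 2) ≤
      Real.exp (R ^ 2 / 2) * H σ t := by
  have e1 : H σ t = ∫ u : ℝ, ‖riemannZeta ((σ : ℂ) + (u : ℂ) * I)‖ * Real.exp (-(u - t) ^ 2 / 4) := by
    have := integral_add_left_eq_self (μ := volume)
      (fun u : ℝ => ‖riemannZeta ((σ : ℂ) + (u : ℂ) * I)‖ * Real.exp (-(u - t) ^ 2 / 4)) t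
    rw [← this, H]
    refine integral_congr_ae (Eventually.of_forall fun v => ?_)
    simp only [add_sub_cancel_left]
  rw [e1, ← integral_const_mul]
  refine integral_mono (zeta_gauss_int h1 h2 2 y (by norm_num))
    ((zeta_gauss_int h1 h2 4 t (by norm_num)).const_mul _) fun u => ?_
  simp only
  have h3 : Real.exp (-(u - y) ^ 2 / 2) ≤ Real.exp (R ^ 2 / 2) * Real.exp (-(u - t) ^ 2 / 4) := by
    rw [← Real.exp_add]
    apply Real.exp_le_exp.2
    have h4 : (y - t) ^ 2 ≤ R ^ 2 := by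
      rw [← sq_abs]
      exact pow_le_pow_left₀ (abs_nonneg _) hy 2
    nlinarith [sq_nonneg ((u - y) - (y - t))]
  calc _ ≤ ‖riemannZeta ((σ : ℂ) + (u : ℂ) * I)‖ *
        (Real.exp (R ^ 2 / 2) * Real.exp (-(u - t) ^ 2 / 4)) := by gcongr
    _ = _ := by ring

lemma first_moment {σ : ℝ} (h1 : 1 / 2 < σ) (h2 : σ < 1) : ∃ C : ℝ, 0 < C ∧ ∀ X : ℝ, 1 ≤ X →
    ∫ t in (-X)..X, ‖riemannZeta ((σ : ℂ) + t * I)‖ ≤ C * X := by
  obtain ⟨C, hC, h⟩ := Pool.Agent.Q211.NB.msq h1 h2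
  have hc := zc σ h2
  refine ⟨2 * (1 + C), by positivity, fun X hX => ?_⟩
  have hii : ∀ a b : ℝ, IntervalIntegrable (fun t : ℝ => ‖riemannZeta ((σ : ℂ) + t * I)‖) volume a b :=
    fun a b => hc.intervalIntegrable a b
  have e1 : ∫ t in (-X)..0, ‖riemannZeta ((σ : ℂ) + t * I)‖ = ∫ t in (0 : ℝ)..X, ‖riemannZeta ((σ : ℂ) + t * I)‖ := by
    have := intervalIntegral.integral_comp_neg (a := 0) (b := X)
      (fun t : ℝ => ‖riemannZeta ((σ : ℂ) + t * I)‖)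
    rw [neg_zero] at this
    rw [← this]
    refine intervalIntegral.integral_congr fun t _ => ?_
    exact Pool.Agent.Q211.NB.zsymm σ t
  have e2 : ∫ t in (0 : ℝ)..X, ‖riemannZeta ((σ : ℂ) + t * I)‖ ≤ X + C * X := by
    calc ∫ t in (0 : ℝ)..X, ‖riemannZeta ((σ : ℂ) + t * I)‖
        ≤ ∫ t in (0 : ℝ)..X, (1 + ‖riemannZeta ((σ : ℂ) + t * I)‖ ^ 2) := by
          refine intervalIntegral.integral_mono_on (by linarith) (hii _ _)
            ((continuous_const.add (hc.pow 2)).intervalIntegrable _ _) fun t _ => ?_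
          nlinarith [sq_nonneg (‖riemannZeta ((σ : ℂ) + t * I)‖ - 1), norm_nonneg (riemannZeta ((σ : ℂ) + t * I))]
      _ = X + ∫ t in (0 : ℝ)..X, ‖riemannZeta ((σ : ℂ) + t * I)‖ ^ 2 := by
          have hi2 : IntervalIntegrable (fun t : ℝ => ‖riemannZeta ((σ : ℂ) + t * I)‖ ^ 2) volume 0 X :=
            (hc.pow 2).intervalIntegrable _ _
          rw [intervalIntegral.integral_add (by simp) hi2]
          simp
      _ ≤ X + C * X := by linarith [h X hX]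
  rw [← intervalIntegral.integral_add_adjacent_intervals (hii (-X) 0) (hii 0 X), e1]
  nlinarith

lemma inner {σ : ℝ} (h1 : 1 / 2 < σ) (h2 : σ < 1) : ∃ C : ℝ, 0 < C ∧ ∀ T v : ℝ, 1 ≤ T →
    ∫⁻ t in Icc T (2 * T), ENNReal.ofReal ‖riemannZeta ((σ : ℂ) + ((t + v : ℝ) : ℂ) * I)‖ ≤
      ENNReal.ofReal (C * T * (1 + |v|)) := by
  obtain ⟨C, hC, h⟩ := first_moment h1 h2
  have hc := zc σ h2
  refine ⟨2 * C, by positivity, fun T v hT => ?_⟩
  have hcv : Continuous (fun t : ℝ => ‖riemannZeta ((σ : ℂ) + ((t + v : ℝ) : ℂ) * I)‖) :=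
    hc.comp (continuous_id.add continuous_const)
  rw [← ofReal_integral_eq_lintegral_ofReal (hcv.integrableOn_Icc) (Eventually.of_forall fun t => norm_nonneg _)]
  apply ENNReal.ofReal_le_ofReal
  rw [integral_Icc_eq_integral_Ioc, ← intervalIntegral.integral_of_le (by linarith)]
  have e1 := intervalIntegral.integral_comp_add_right (a := T) (b := 2 * T)
    (fun t : ℝ => ‖riemannZeta ((σ : ℂ) + t * I)‖) v
  rw [e1]
  have hv := abs_nonneg v
  have hv1 := neg_abs_le v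
  have hv2 := le_abs_self v
  calc ∫ t in (T + v)..(2 * T + v), ‖riemannZeta ((σ : ℂ) + t * I)‖
      ≤ ∫ t in (-(2 * T + |v|))..(2 * T + |v|), ‖riemannZeta ((σ : ℂ) + t * I)‖ := by
        refine intervalIntegral.integral_mono_interval (by linarith) (by linarith) (by linarith)
          (Eventually.of_forall fun t => norm_nonneg _) (hc.intervalIntegrable _ _)
    _ ≤ C * (2 * T + |v|) := h _ (by linarith)
    _ ≤ 2 * C * T * (1 + |v|) := by nlinarith [mul_nonneg hC.le hv, mul_nonneg (mul_nonneg hC.le hv) (by linarith : 0 ≤ T - 1)]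

lemma meanH {σ : ℝ} (h1 : 1 / 2 < σ) (h2 : σ ≤ 3 / 4) : ∃ C : ℝ, 0 < C ∧ ∀ T : ℝ, 1 ≤ T →
    ∫⁻ t in Icc T (2 * T), ENNReal.ofReal (H σ t) ≤ ENNReal.ofReal (C * T) := by
  obtain ⟨C, hC, h⟩ := inner h1 (by linarith)
  have hg := gauss_int 4 0 (by norm_num)
  simp only [sub_zero] at hg
  set c : ℝ := ∫ u : ℝ, (1 + |u|) * Real.exp (-u ^ 2 / 4) with hc
  have hc0 : 0 ≤ c := integral_nonneg fun u => by positivity
  refine ⟨C * c + 1, by positivity, fun T hT => ?_⟩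
  have hzc := zc σ (by linarith)
  have hcont : Continuous (fun p : ℝ × ℝ =>
      ENNReal.ofReal (‖riemannZeta ((σ : ℂ) + ((p.1 + p.2 : ℝ) : ℂ) * I)‖ * Real.exp (-p.2 ^ 2 / 4))) := by
    refine ENNReal.continuous_ofReal.comp ?_
    exact (hzc.comp (continuous_fst.add continuous_snd)).mul (by fun_prop)
  have e1 : ∀ t : ℝ, ENNReal.ofReal (H σ t) =
      ∫⁻ v : ℝ, ENNReal.ofReal (‖riemannZeta ((σ : ℂ) + ((t + v : ℝ) : ℂ) * I)‖ * Real.exp (-v ^ 2 / 4)) := by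
    intro t
    exact ofReal_integral_eq_lintegral_ofReal (H_int (by linarith) h2 t)
      (Eventually.of_forall fun v => by positivity)
  simp_rw [e1]
  rw [lintegral_lintegral_swap hcont.aemeasurable]
  have e2 : ∀ v : ℝ, ∫⁻ t in Icc T (2 * T),
      ENNReal.ofReal (‖riemannZeta ((σ : ℂ) + ((t + v : ℝ) : ℂ) * I)‖ * Real.exp (-v ^ 2 / 4)) ≤
      ENNReal.ofReal (C * T * ((1 + |v|) * Real.exp (-v ^ 2 / 4))) := by
    intro v
    have e3 : ∀ t : ℝ, ENNReal.ofReal (‖riemannZeta ((σ : ℂ) + ((t + v : ℝ) : ℂ) * I)‖ * Real.exp (-v ^ 2 / 4)) =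
        ENNReal.ofReal ‖riemannZeta ((σ : ℂ) + ((t + v : ℝ) : ℂ) * I)‖ * ENNReal.ofReal (Real.exp (-v ^ 2 / 4)) :=
      fun t => ENNReal.ofReal_mul (norm_nonneg _)
    simp_rw [e3]
    rw [lintegral_mul_const' _ _ ENNReal.ofReal_ne_top, ← mul_assoc, ENNReal.ofReal_mul (by positivity)]
    gcongr
    exact h T v hT
  calc ∫⁻ v : ℝ, ∫⁻ t in Icc T (2 * T),
      ENNReal.ofReal (‖riemannZeta ((σ : ℂ) + ((t + v : ℝ) : ℂ) * I)‖ * Real.exp (-v ^ 2 / 4))
      ≤ ∫⁻ v : ℝ, ENNReal.ofReal (C * T * ((1 + |v|) * Real.exp (-v ^ 2 / 4))) := lintegral_mono e2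
    _ = ENNReal.ofReal (∫ v : ℝ, C * T * ((1 + |v|) * Real.exp (-v ^ 2 / 4))) := by
        rw [ofReal_integral_eq_lintegral_ofReal (hg.const_mul _) (Eventually.of_forall fun v => by positivity)]
    _ ≤ ENNReal.ofReal ((C * c + 1) * T) := by
        apply ENNReal.ofReal_le_ofReal
        rw [integral_const_mul, ← hc]
        nlinarith

theorem gw_main (R η ε : ℝ) (hR : 0 < R) (hη : 0 < η) (hε : 0 < ε) : ∃ T0 : ℝ, 10 ≤ T0 ∧
    ∀ T : ℝ, T0 ≤ T → volume {t : ℝ | t ∈ Icc T (2 * T) ∧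
      ∃ y : ℝ, |y - t| ≤ R ∧ T ^ η < ‖riemannZeta (1 / 2 + I * y)‖} ≤ ENNReal.ofReal (ε * T) := by
  set a : ℝ := min (η / 16) (1 / 4) with ha
  have ha0 : 0 < a := lt_min (by positivity) (by norm_num)
  have ha4 : a ≤ 1 / 4 := min_le_right _ _
  have haη : a ≤ η / 16 := min_le_left _ _
  have hs1 : 1 / 2 < 1 / 2 + a := by linarith
  have hs2 : 1 / 2 + a ≤ 3 / 4 := by linarith
  obtain ⟨C1, hC1, hleft⟩ := left_int
  obtain ⟨C2, hC2, hmean⟩ := meanH hs1 hs2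
  -- the pointwise bound
  set K : ℝ := 4 / a * Real.exp 1 * Real.exp (R ^ 2 / 2) with hK
  have hK0 : 0 < K := by positivity
  set K2 : ℝ := 16 * Real.exp 1 * C1 * (4 + R) with hK2
  have hK20 : 0 < K2 := by positivity
  have hpt : ∀ T t y : ℝ, 10 ≤ T → t ∈ Icc T (2 * T) → |y - t| ≤ R →
      ‖riemannZeta (1 / 2 + I * y)‖ ≤ K * T ^ (4 * a) * H (1 / 2 + a) t + K2 := by
    intro T t y hT ht hy
    have hT0 : 0 < T := by linarith
    have hl : 0 ≤ 4 * Real.log T := by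
      have := Real.log_nonneg (by linarith : (1 : ℝ) ≤ T)
      linarith
    have h1 := pt0 ha0 ha4 (4 * Real.log T) y hl
    have e0 : (⟨1 / 2, y⟩ : ℂ) = 1 / 2 + I * y := by
      apply Complex.ext <;> simp
    rw [e0] at h1
    refine h1.trans (add_le_add ?_ ?_)
    · have h2 := window (by linarith : 1 / 4 ≤ 1 / 2 + a) hs2 hy
      have e1 : Real.exp (4 * Real.log T * a + 1) = Real.exp 1 * T ^ (4 * a) := by
        rw [Real.rpow_def_of_pos hT0, ← Real.exp_add]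
        congr 1
        ring
      rw [e1]
      calc 4 / a * (Real.exp 1 * T ^ (4 * a)) * _ ≤ 4 / a * (Real.exp 1 * T ^ (4 * a)) *
            (Real.exp (R ^ 2 / 2) * H (1 / 2 + a) t) := by gcongr
        _ = _ := by rw [hK]; ring
    · have h2 := hleft y
      have e1 : Real.exp (-(4 * Real.log T / 4) + 1) = Real.exp 1 * T⁻¹ := by
        rw [Real.exp_add, mul_comm]
        congr 1
        rw [mul_div_cancel_left₀ _ (by norm_num : (4 : ℝ) ≠ 0), Real.exp_neg, Real.exp_log hT0]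
      rw [e1]
      have hy1 : 1 + |y| ≤ (4 + R) * T := by
        have h3 := abs_add_le (y - t) t
        rw [sub_add_cancel] at h3
        have h4 : |t| ≤ 2 * T := by
          rw [abs_of_nonneg (by linarith [ht.1])]
          exact ht.2
        nlinarith
      calc 16 * (Real.exp 1 * T⁻¹) * _ ≤ 16 * (Real.exp 1 * T⁻¹) * (C1 * (1 + |y|)) := by gcongr
        _ ≤ 16 * (Real.exp 1 * T⁻¹) * (C1 * ((4 + R) * T)) := by gcongr
        _ = K2 := by
            rw [hK2]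
            field_simp
  -- large `T`
  have l1 : Tendsto (fun T : ℝ => T ^ η) atTop atTop := tendsto_rpow_atTop hη
  have l2 : Tendsto (fun T : ℝ => T ^ (η / 2)) atTop atTop := tendsto_rpow_atTop (by positivity)
  obtain ⟨T1, hT1⟩ := (l1.eventually_ge_atTop (2 * K2)).exists_forall_of_atTop
  obtain ⟨T2, hT2⟩ := (l2.eventually_ge_atTop (2 * K * C2 / ε)).exists_forall_of_atTop
  refine ⟨max 10 (max T1 T2), le_max_left _ _, fun T hT => ?_⟩
  have hT10 : 10 ≤ T := (le_max_left _ _).trans hT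
  have hTT1 : T1 ≤ T := (le_max_left _ _).trans ((le_max_right _ _).trans hT)
  have hTT2 : T2 ≤ T := (le_max_right _ _).trans ((le_max_right _ _).trans hT)
  have hT0 : 0 < T := by linarith
  have hT1' : 1 ≤ T := by linarith
  have k1 := hT1 T hTT1
  have k2 := hT2 T hTT2
  set c : ℝ := T ^ (η / 2) / (2 * K) with hc
  have hc0 : 0 < c := by positivity
  have hsub : {t : ℝ | t ∈ Icc T (2 * T) ∧
      ∃ y : ℝ, |y - t| ≤ R ∧ T ^ η < ‖riemannZeta (1 / 2 + I * y)‖} ⊆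
      {t : ℝ | ENNReal.ofReal c ≤ ENNReal.ofReal (H (1 / 2 + a) t)} ∩ Icc T (2 * T) := by
    rintro t ⟨ht, y, hy, hbig⟩
    refine ⟨?_, ht⟩
    have h1 := hpt T t y hT10 ht hy
    have h2 : T ^ η / 2 ≤ K * T ^ (4 * a) * H (1 / 2 + a) t := by linarith
    have h3 : T ^ (4 * a) ≤ T ^ (η / 2) :=
      Real.rpow_le_rpow_of_exponent_le hT1' (by linarith)
    have hH0 : 0 ≤ H (1 / 2 + a) t := integral_nonneg fun v => by positivity
    have h4 : T ^ η = T ^ (η / 2) * T ^ (η / 2) := by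
      rw [← Real.rpow_add hT0]
      congr 1
      ring
    have h5 : 0 < T ^ (η / 2) := by positivity
    apply ENNReal.ofReal_le_ofReal
    rw [hc, div_le_iff₀ (by positivity)]
    have h6 : T ^ (η / 2) * T ^ (η / 2) / 2 ≤ K * T ^ (η / 2) * H (1 / 2 + a) t := by
      rw [← h4]
      refine h2.trans ?_
      gcongr
    have h7 : T ^ (η / 2) * T ^ (η / 2) ≤ T ^ (η / 2) * (H (1 / 2 + a) t * (2 * K)) := by nlinarith
    exact le_of_mul_le_mul_left h7 h5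
  have hmeas : AEMeasurable (fun t : ℝ => ENNReal.ofReal (H (1 / 2 + a) t)) (volume.restrict (Icc T (2 * T))) := by
    have hzc := zc (1 / 2 + a) (by linarith)
    have h1 : Continuous (fun p : ℝ × ℝ =>
        ‖riemannZeta (((1 / 2 + a : ℝ) : ℂ) + ((p.1 + p.2 : ℝ) : ℂ) * I)‖ * Real.exp (-p.2 ^ 2 / 4)) :=
      (hzc.comp (continuous_fst.add continuous_snd)).mul (by fun_prop)
    have h2 : StronglyMeasurable (H (1 / 2 + a)) :=
      (h1.stronglyMeasurable).integral_prod_right'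
    exact h2.measurable.ennreal_ofReal.aemeasurable
  have hcne : ENNReal.ofReal c ≠ 0 := by
    rw [Ne, ENNReal.ofReal_eq_zero, not_le]
    exact hc0
  calc volume {t : ℝ | t ∈ Icc T (2 * T) ∧
      ∃ y : ℝ, |y - t| ≤ R ∧ T ^ η < ‖riemannZeta (1 / 2 + I * y)‖}
      ≤ volume ({t : ℝ | ENNReal.ofReal c ≤ ENNReal.ofReal (H (1 / 2 + a) t)} ∩ Icc T (2 * T)) :=
        measure_mono hsub
    _ ≤ volume.restrict (Icc T (2 * T)) {t : ℝ | ENNReal.ofReal c ≤ ENNReal.ofReal (H (1 / 2 + a) t)} :=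
        Measure.le_restrict_apply _ _
    _ ≤ (∫⁻ t in Icc T (2 * T), ENNReal.ofReal (H (1 / 2 + a) t)) / ENNReal.ofReal c :=
        meas_ge_le_lintegral_div hmeas hcne ENNReal.ofReal_ne_top
    _ ≤ ENNReal.ofReal (C2 * T) / ENNReal.ofReal c := by
        gcongr
        exact hmean T hT1'
    _ = ENNReal.ofReal (C2 * T / c) := by rw [ENNReal.ofReal_div_of_pos hc0]
    _ ≤ ENNReal.ofReal (ε * T) := by
        apply ENNReal.ofReal_le_ofReal
        rw [div_le_iff₀ hc0, hc]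
        rw [div_le_iff₀ hε] at k2
        have h5 : C2 ≤ T ^ (η / 2) * ε / (2 * K) := by
          rw [le_div_iff₀ (by positivity)]
          linarith
        calc C2 * T ≤ (T ^ (η / 2) * ε / (2 * K)) * T := by gcongr
          _ = ε * T * (T ^ (η / 2) / (2 * K)) := by ring

theorem gw' : Pool.Agent.H466.HP.S_GW := gw_main

end Pool.Agent.H118.HP
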